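import Mathlib
import Pool.Agent.L7h86.Ends2

/-!
# The stability intervals of coherent systems on the projective line

For every type `(n, d, k)` with `n, k ≥ 1` the set `I(n, d, k)` of the parameters `α > 0` for which
an `α`-stable coherent system of type `(n, d, k)` exists on the projective line is determined:

* `Adm α n d k` is a recursive numerical criterion (of the kind of Drézet and Le Potier) for
  `α ∈ I(n, d, k)`;
* `ival n d k` computes the interval `I(n, d, k)` itself: `none` means that it is empty,
  `some (a, b)` that it is the open interval from `a` to `b`, where `b = ⊤` stands for infinity.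
-/

set_option autoImplicit false

namespace Pool.Agent.Results.MP_997ec4_ag.StabilityIntervals

open Pool.Agent.L7h86 Pool.Agent.L7h86.Coh

/-- For every type `(n, d, k)` with `n, k ≥ 1`: an `α`-stable coherent system of type `(n, d, k)`
exists on the projective line if and only if the recursive numerical criterion `Adm α n d k` holds,
and the set of these `α > 0` is the interval computed by `ival n d k`. -/
theorem result (n k : ℕ) (hn : 1 ≤ n) (hk : 1 ≤ k) (d : ℤ) :
    (∀ α : ℝ, 0 < α → (α ∈ stabilitySet n d k ↔ Adm α n d k)) ∧
    {α : ℝ | 0 < α ∧ α ∈ stabilitySet n d k} = (ival n d k).toSet :=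
  ⟨fun _ hα => criterion hn hk d hα, interval hn hk d⟩

end Pool.Agent.Results.MP_997ec4_ag.StabilityIntervals
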